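import Pool.Agent.TH206.Fro.Stmts

set_option autoImplicit false

namespace Pool.Agent.TH206.Fro

open Finset

theorem vand_thm : S_VAND := by
  intro n k d hn c hc
  rw [mem_Mon] at hc
  have key : ((∑ c' ∈ Mon n d, W c c' : ℕ) : ℤ) = ((k + d + n - 1).choose d : ℕ) := by
    have h1 : PowerSeries.coeff d (∏ i : Fin n, (PowerSeries.mk 1 : PowerSeries ℤ) ^ (c i + 1)) =
        ((∑ c' ∈ Mon n d, W c c' : ℕ) : ℤ) := by
      rw [PowerSeries.coeff_prod]
      push_cast
      refine Finset.sum_congr rfl fun y _ => ?_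
      unfold W
      push_cast
      refine Finset.prod_congr rfl fun i _ => ?_
      rw [PowerSeries.mk_one_pow_eq_mk_choose_add, PowerSeries.coeff_mk]
    rw [← h1, Finset.prod_pow_eq_pow_sum, Finset.sum_add_distrib, hc]
    simp only [Finset.sum_const, Finset.card_univ, Fintype.card_fin, smul_eq_mul, mul_one]
    obtain ⟨m, rfl⟩ : ∃ m, n = m + 1 := ⟨n - 1, by omega⟩
    rw [← add_assoc, PowerSeries.mk_one_pow_eq_mk_choose_add, PowerSeries.coeff_mk]
    have h2 : k + d + (m + 1) - 1 = k + m + d := by omega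
    rw [h2, Nat.choose_symm_add]
  exact_mod_cast key

theorem split_thm : S_SPLIT := by
  intro n k d u hu
  have hu' : ∑ i, u i = k + d := mem_Mon.1 hu
  have h1 : ∑ c ∈ Mon n k, ∏ i, (u i).choose (c i) = (k + d).choose k := by
    have h2 : PowerSeries.coeff k (∏ i : Fin n, (1 + PowerSeries.X : PowerSeries ℕ) ^ (u i)) =
        ∑ c ∈ Mon n k, ∏ i, (u i).choose (c i) := by
      rw [PowerSeries.coeff_prod]
      refine Finset.sum_congr rfl fun y _ => Finset.prod_congr rfl fun i _ => ?_
      have h3 : ((1 + PowerSeries.X : PowerSeries ℕ) ^ (u i)) =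
          (((1 + Polynomial.X) ^ (u i) : Polynomial ℕ) : PowerSeries ℕ) := by
        simp
      rw [h3, Polynomial.coeff_coe, Polynomial.coeff_one_add_X_pow]
      simp
    rw [← h2, Finset.prod_pow_eq_pow_sum, hu']
    have h3 : ((1 + PowerSeries.X : PowerSeries ℕ) ^ (k + d)) =
        (((1 + Polynomial.X) ^ (k + d) : Polynomial ℕ) : PowerSeries ℕ) := by
      simp
    rw [h3, Polynomial.coeff_coe, Polynomial.coeff_one_add_X_pow]
    simp
  rw [← h1]
  have h4 : ∑ c ∈ Mon n k, ∏ i, (u i).choose (c i) =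
      ∑ c ∈ (Mon n k).filter (fun c => c ≤ u), ∏ i, (u i).choose (c i) := by
    rw [Finset.sum_filter_of_ne]
    intro c hc hne
    intro i
    by_contra hlt
    exact hne (Finset.prod_eq_zero (Finset.mem_univ i) (Nat.choose_eq_zero_of_lt (not_le.1 hlt)))
  rw [h4]
  refine Finset.sum_bij' (fun p _ => p.1) (fun c _ => (c, u - c)) ?_ ?_ ?_ ?_ ?_
  · intro p hp
    simp only [Finset.mem_filter, Finset.mem_product] at hp ⊢
    refine ⟨hp.1.1, ?_⟩
    rw [← hp.2]
    exact le_self_add
  · intro c hc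
    simp only [Finset.mem_filter, Finset.mem_product] at hc ⊢
    have h5 : c + (u - c) = u := add_tsub_cancel_of_le hc.2
    refine ⟨⟨hc.1, ?_⟩, h5⟩
    rw [mem_Mon]
    have h6 : ∑ i, (c i + (u - c) i) = k + d := by
      rw [← hu']
      refine Finset.sum_congr rfl fun i _ => ?_
      rw [← Finsupp.add_apply, h5]
    rw [Finset.sum_add_distrib, mem_Mon.1 hc.1] at h6
    omega
  · intro p hp
    simp only [Finset.mem_filter, Finset.mem_product] at hp
    have h5 : u - p.1 = p.2 := by rw [← hp.2]; simp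
    exact Prod.ext rfl h5
  · intro c hc
    rfl
  · intro p hp
    simp only [Finset.mem_filter, Finset.mem_product] at hp
    unfold W
    refine Finset.prod_congr rfl fun i _ => ?_
    rw [← hp.2, Finsupp.add_apply]

end Pool.Agent.TH206.Fro
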