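import Pool.Agent.TH206.Fro.Incr
import Pool.Agent.TH206.Fro.Fkg
import Pool.Agent.TH206.Fro.Vand

/-!
Negative correlation for strongly stable sets (by helper73).
-/

set_option autoImplicit false

namespace Pool.Agent.TH206.Fro

open Finset

lemma W_comm {n : ℕ} (c y : Fin n →₀ ℕ) : W c y = W y c := by
  unfold W
  refine Finset.prod_congr rfl fun i _ => ?_
  rw [Nat.add_comm (y i) (c i)]
  exact Nat.choose_symm_add

lemma mv_mem_Mon {n l : ℕ} {y : Fin n →₀ ℕ} (hy : y ∈ Mon n l) {i j : Fin n} (hi : 0 < y i) :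
    mv j i y ∈ Mon n l := by
  have h1 : y - Finsupp.single i 1 + Finsupp.single i 1 = y := sub_single_add hi
  rw [mem_Mon'] at hy ⊢
  have h2 : Finsupp.degree (y - Finsupp.single i 1) + 1 = l := by
    rw [← hy]
    conv_rhs => rw [← h1]
    rw [map_add, Finsupp.degree_single]
  unfold mv
  rw [map_add, Finsupp.degree_single, h2]

theorem assoc_thm : S_ASSOC := by
  intro n k d hn A B hA hB hsA hsB
  classical
  set Y := Mon n d \ B with hY
  let h : (Fin n →₀ ℕ) → ℚ := fun y => if y ∈ Y then 1 else 0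
  have hinc : ∀ y ∈ Mon n d, ∀ i j : Fin n, i < j → 0 < y i → h y ≤ h (mv j i y) := by
    intro y hy i j hij hi
    by_cases h1 : y ∈ Y
    · have h2 : mv j i y ∈ Y := by
        rw [hY, mem_sdiff] at h1 ⊢
        refine ⟨mv_mem_Mon hy hi, fun hb => h1.2 ?_⟩
        have h3 := hsB (mv j i y) hb i j hij (by
          unfold mv
          simp)
        rwa [FkgX.mv_mv hi] at h3
      simp only [h, if_pos h1, if_pos h2]; exact le_rfl
    · have : h y = 0 := if_neg h1
      rw [this]
      simp only [h]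
      split_ifs <;> norm_num
  let G : (Fin n →₀ ℕ) → ℚ := fun c => ∑ y ∈ Mon n d, (W c y : ℚ) * h y
  have hG0 : ∀ c, 0 ≤ G c := by
    intro c
    refine Finset.sum_nonneg fun y _ => mul_nonneg (by positivity) ?_
    simp only [h]; split_ifs <;> norm_num
  have hGe : ∀ c, G c = ((∑ y ∈ Y, W c y : ℕ) : ℚ) := by
    intro c
    simp only [G, h, mul_ite, mul_one, mul_zero]
    rw [← Finset.sum_filter]
    push_cast
    refine Finset.sum_congr ?_ fun _ _ => rfl
    ext y
    rw [mem_filter, hY, mem_sdiff]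
    tauto
  have hfkg := fkg_thm n k A G hA hsA (fun c _ => hG0 c) (incr_thm n k d h hinc)
  have h1 : ((Mon n k).card * ∑ c ∈ A, ∑ y ∈ Y, W c y : ℕ) ≤ A.card * ∑ c ∈ Mon n k, ∑ y ∈ Y, W c y := by
    have : (((Mon n k).card * ∑ c ∈ A, ∑ y ∈ Y, W c y : ℕ) : ℚ) ≤
        ((A.card * ∑ c ∈ Mon n k, ∑ y ∈ Y, W c y : ℕ) : ℚ) := by
      simp only [hGe] at hfkg
      push_cast at hfkg ⊢
      exact hfkg
    exact_mod_cast this
  have h2 : ∑ c ∈ Mon n k, ∑ y ∈ Y, W c y = Y.card * (d + k + n - 1).choose k := by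
    rw [Finset.sum_comm]
    rw [Finset.sum_congr rfl (g := fun _ => (d + k + n - 1).choose k)]
    · rw [Finset.sum_const, smul_eq_mul]
    · intro y hy
      have hy' : y ∈ Mon n d := (mem_sdiff.1 hy).1
      rw [← vand_thm n d k hn y hy']
      exact Finset.sum_congr rfl fun c _ => W_comm c y
  have h3 : (Mon n k).card * (k + d + n - 1).choose d = (Mon n d).card * (d + k + n - 1).choose k := by
    have e1 : ∑ c ∈ Mon n k, ∑ y ∈ Mon n d, W c y = (Mon n k).card * (k + d + n - 1).choose d := by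
      rw [Finset.sum_congr rfl fun c hc => vand_thm n k d hn c hc, Finset.sum_const, smul_eq_mul]
    have e2 : ∑ c ∈ Mon n k, ∑ y ∈ Mon n d, W c y = (Mon n d).card * (d + k + n - 1).choose k := by
      rw [Finset.sum_comm]
      rw [Finset.sum_congr rfl (g := fun _ => (d + k + n - 1).choose k)]
      · rw [Finset.sum_const, smul_eq_mul]
      · intro y hy
        rw [← vand_thm n d k hn y hy]
        exact Finset.sum_congr rfl fun c _ => W_comm c y
    rw [← e1, e2]
  have hpos : 0 < (Mon n k).card := by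
    rw [card_Mon]
    exact Nat.choose_pos (by omega)
  refine Nat.le_of_mul_le_mul_left ?_ hpos
  calc (Mon n k).card * ((∑ c ∈ A, ∑ y ∈ Y, W c y) * (Mon n d).card) =
        ((Mon n k).card * ∑ c ∈ A, ∑ y ∈ Y, W c y) * (Mon n d).card := by ring
    _ ≤ (A.card * ∑ c ∈ Mon n k, ∑ y ∈ Y, W c y) * (Mon n d).card := Nat.mul_le_mul_right _ h1
    _ = A.card * Y.card * ((Mon n d).card * (d + k + n - 1).choose k) := by rw [h2]; ring
    _ = A.card * Y.card * ((Mon n k).card * (k + d + n - 1).choose d) := by rw [h3]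
    _ = _ := by ring

end Pool.Agent.TH206.Fro
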