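import Mathlib

/-!
Definitions for the product inequality used in the proof of the formula of Froeberg in degrees
smaller than twice the least degree.
-/

set_option autoImplicit false

namespace Pool.Agent.TH206.Fro

open Finset
open scoped Pointwise

/-- The exponents of the monomials of degree `k` in `n` variables. -/
noncomputable def Mon (n k : ℕ) : Finset (Fin n →₀ ℕ) :=
  Finset.finsuppAntidiag (Finset.univ : Finset (Fin n)) k

lemma mem_Mon {n k : ℕ} {c : Fin n →₀ ℕ} : c ∈ Mon n k ↔ ∑ i, c i = k := by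
  simp [Mon]

lemma mem_Mon' {n k : ℕ} {c : Fin n →₀ ℕ} : c ∈ Mon n k ↔ Finsupp.degree c = k := by
  rw [mem_Mon, Finsupp.degree_eq_sum]

lemma card_Mon (n k : ℕ) : (Mon n k).card = (n + k - 1).choose k := by
  unfold Mon
  rw [Finset.card_finsuppAntidiag_nat_eq_choose]
  simp

/-- Replace one factor `x_j` by `x_i`. -/
noncomputable def mv {n : ℕ} (i j : Fin n) (c : Fin n →₀ ℕ) : Fin n →₀ ℕ :=
  c - Finsupp.single j 1 + Finsupp.single i 1

/-- A strongly stable set: `x_j` may be replaced by `x_i` for `i < j`. -/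
def Stable {n : ℕ} (A : Finset (Fin n →₀ ℕ)) : Prop :=
  ∀ a ∈ A, ∀ i j : Fin n, i < j → 0 < a j → mv i j a ∈ A

/-- The product inequality for sets of monomials. -/
def MonM (n k d : ℕ) : Prop :=
  ∀ A B : Finset (Fin n →₀ ℕ), A ⊆ Mon n k → B ⊆ Mon n d → A.Nonempty →
    A.card + (Mon n d).card = B.card + (Mon n k).card →
    A.card * (Mon n (k + d)).card ≤ (A + B).card * (Mon n k).card

/-- The weight of the pair `(c, c')`: the number of ways to choose the factors of `c` among the
factors of `c * c'`. -/
def W {n : ℕ} (c c' : Fin n →₀ ℕ) : ℕ := ∏ i, (c i + c' i).choose (c i)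

end Pool.Agent.TH206.Fro
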