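import Pool.Agent.TH206.Fro.Stmts

set_option autoImplicit false

namespace Pool.Agent.TH206.Fro

open Finset MvPolynomial
open scoped Pointwise MonomialOrder

section

variable {F : Type} [Field F] {n : ℕ}

/-- the lexicographic order -/
noncomputable abbrev lx (n : ℕ) : MonomialOrder (Fin n) := MonomialOrder.lex

open Classical in
/-- The leading exponents of a space of forms of degree `q`. -/
noncomputable def leads (q : ℕ) (V : Submodule F (MvPolynomial (Fin n) F)) :
    Finset (Fin n →₀ ℕ) :=
  (Mon n q).filter (fun c => ∃ f ∈ V, f ≠ 0 ∧ (lx n).degree f = c)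

lemma degree_mem_Mon {q : ℕ} {V : Submodule F (MvPolynomial (Fin n) F)}
    (hV : V ≤ homogeneousSubmodule (Fin n) F q) {f : MvPolynomial (Fin n) F} (hf : f ∈ V)
    (hf0 : f ≠ 0) : (lx n).degree f ∈ Mon n q := by
  have h1 : f.IsHomogeneous q := (mem_homogeneousSubmodule q f).1 (hV hf)
  rw [mem_Mon']
  have h2 := h1 ((MonomialOrder.coeff_degree_ne_zero_iff (m := lx n)).2 hf0)
  rw [← h2, Finsupp.degree_eq_weight_one]
  rfl

lemma mem_leads {q : ℕ} {V : Submodule F (MvPolynomial (Fin n) F)}
    (hV : V ≤ homogeneousSubmodule (Fin n) F q) {c : Fin n →₀ ℕ} :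
    c ∈ leads q V ↔ ∃ f ∈ V, f ≠ 0 ∧ (lx n).degree f = c := by
  classical
  unfold leads
  rw [Finset.mem_filter]
  constructor
  · exact fun h => h.2
  · rintro ⟨f, hf, hf0, hd⟩
    refine ⟨?_, f, hf, hf0, hd⟩
    rw [← hd]
    exact degree_mem_Mon hV hf hf0

/-- coefficients at the leading exponents -/
noncomputable def coeffMap (q : ℕ) (V : Submodule F (MvPolynomial (Fin n) F)) :
    V →ₗ[F] ((leads q V) → F) :=
  LinearMap.pi fun c => (MvPolynomial.lcoeff F c.1).comp V.subtype

lemma coeffMap_injective {q : ℕ} {V : Submodule F (MvPolynomial (Fin n) F)}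
    (hV : V ≤ homogeneousSubmodule (Fin n) F q) : Function.Injective (coeffMap q V) := by
  rw [injective_iff_map_eq_zero]
  intro f hf
  by_contra hne
  have hf0 : (f : MvPolynomial (Fin n) F) ≠ 0 := fun h => hne (Subtype.ext h)
  have hm : (lx n).degree (f : MvPolynomial (Fin n) F) ∈ leads q V :=
    (mem_leads hV).2 ⟨f, f.2, hf0, rfl⟩
  have h1 := congrFun hf ⟨_, hm⟩
  exact (MonomialOrder.coeff_degree_ne_zero_iff (m := lx n)).2 hf0 h1

lemma card_leads {q : ℕ} {V : Submodule F (MvPolynomial (Fin n) F)}
    (hV : V ≤ homogeneousSubmodule (Fin n) F q) : (leads q V).card = Module.finrank F V := by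
  have hfin : Module.Finite F V := Module.Finite.of_injective _ (coeffMap_injective hV)
  apply le_antisymm
  · classical
    -- linear independence
    have hch : ∀ c : leads q V, ∃ f : V, (f : MvPolynomial (Fin n) F) ≠ 0 ∧
        (lx n).degree (f : MvPolynomial (Fin n) F) = c.1 := by
      intro c
      obtain ⟨f, hf, hf0, hd⟩ := (mem_leads hV).1 c.2
      exact ⟨⟨f, hf⟩, hf0, hd⟩
    choose f hf0 hd using hch
    have hli : LinearIndependent F f := by
      rw [Fintype.linearIndependent_iff]
      intro g hg
      by_contra hne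
      push Not at hne
      obtain ⟨i0, hi0⟩ := hne
      obtain ⟨c, hc, hmax⟩ := Finset.exists_max_image
        (Finset.univ.filter (fun c : leads q V => g c ≠ 0)) (fun c => (lx n).toSyn c.1)
        ⟨i0, by simp [hi0]⟩
      rw [Finset.mem_filter] at hc
      have h1 : MvPolynomial.coeff c.1 ((∑ i, g i • f i : V) : MvPolynomial (Fin n) F) = 0 := by
        rw [hg]; simp
      rw [Submodule.coe_sum, MvPolynomial.coeff_sum, Finset.sum_eq_single c] at h1
      · rw [Submodule.coe_smul, MvPolynomial.coeff_smul, smul_eq_mul] at h1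
        rcases mul_eq_zero.1 h1 with h2 | h2
        · exact hc.2 h2
        · have h3 := (MonomialOrder.coeff_degree_ne_zero_iff (m := lx n)).2 (hf0 c)
          rw [hd c] at h3
          exact h3 h2
      · intro b _ hbc
        rw [Submodule.coe_smul, MvPolynomial.coeff_smul, smul_eq_mul]
        by_cases hgb : g b = 0
        · rw [hgb, zero_mul]
        · have h4 := hmax b (by simp [hgb])
          have h5 : (lx n).toSyn b.1 < (lx n).toSyn c.1 := by
            refine lt_of_le_of_ne h4 ?_
            intro h6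
            exact hbc (Subtype.ext ((lx n).toSyn.injective h6))
          rw [← hd b] at h5
          rw [MonomialOrder.coeff_eq_zero_of_lt h5, mul_zero]
      · intro h; exact absurd (Finset.mem_univ _) h
    have := hli.fintype_card_le_finrank
    rwa [Fintype.card_coe] at this
  · have := LinearMap.finrank_le_finrank_of_injective (coeffMap_injective hV)
    rwa [Module.finrank_fintype_fun_eq_card, Fintype.card_coe] at this

end

theorem init_thm : S_INIT := by
  intro F _ n k d L R hL hR
  have hLR : L * R ≤ homogeneousSubmodule (Fin n) F (k + d) :=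
    (mul_le_mul' hL hR).trans (homogeneousSubmodule_mul k d)
  classical
  refine ⟨leads k L, leads d R, Finset.filter_subset _ _, Finset.filter_subset _ _,
    card_leads hL, card_leads hR, ?_⟩
  rw [← card_leads hLR]
  apply Finset.card_le_card
  intro u hu
  rw [Finset.mem_add] at hu
  obtain ⟨a, ha, b, hb, rfl⟩ := hu
  obtain ⟨f, hf, hf0, rfl⟩ := (mem_leads hL).1 ha
  obtain ⟨g, hg, hg0, rfl⟩ := (mem_leads hR).1 hb
  exact (mem_leads hLR).2 ⟨f * g, Submodule.mul_mem_mul hf hg, mul_ne_zero hf0 hg0,
    MonomialOrder.degree_mul hf0 hg0⟩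

end Pool.Agent.TH206.Fro
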