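import Pool.Agent.TH206.Fro.Stmts2
import Pool.Agent.TH206.Fro.Init

/-!
A nonzero minor of maximal size of the generic matrix.
-/

set_option autoImplicit false

namespace Pool.Agent.TH206.Fro

open Module MvPolynomial
open scoped Pointwise

section

variable {n D : ℕ} {β : Type} [Fintype β] (d : β → ℕ) (K : Type) [Field K]

lemma rank_MK (hn : 1 ≤ n) (hM : ∀ i, d i ≤ D → SubM n (D - d i) (d i))
    (hc : (Mon n D).card ≤ Fintype.card (Ro n D d)) :
    (MK n D d K).rank = (Mon n D).card := by
  have h1 := finrank_ker_mulVec (MK n D d K)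
  have h2 : LinearMap.ker (MK n D d K).mulVecLin = ⊥ := by
    rw [LinearMap.ker_eq_bot']
    intro F hF
    exact ker_zero d K hn hM hc F (fun p => congrFun hF p)
  rw [h2, finrank_bot, zero_add, card_Dg] at h1
  exact h1

lemma MonM_zero (n D : ℕ) : MonM n 0 D := by
  classical
  intro A B hA hB hne hc
  have h0 : (Mon n 0).card = 1 := by rw [card_Mon, Nat.choose_zero_right]
  have h1 : A.card ≤ 1 := h0 ▸ Finset.card_le_card hA
  have h2 : 1 ≤ A.card := Finset.card_pos.2 hne
  have h3 : A.card = 1 := le_antisymm h1 h2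
  have h4 : B.card ≤ (A + B).card := Finset.card_le_card_add_left hne
  rw [h0, h3] at hc ⊢
  rw [zero_add, one_mul, mul_one]
  omega

/-- the rows of `d` among the rows of `d'` -/
noncomputable def embR (n D : ℕ) {β : Type} (d : β → ℕ) (s : ℕ) (p : Ro n D d) :
    Ro n D (Sum.elim d (fun _ : Fin s => D)) := ⟨Sum.inl p.1, p.2⟩

/-- the variables of `d` among the variables of `d'` -/
noncomputable def embI (n D : ℕ) {β : Type} (d : β → ℕ) (s : ℕ) (p : Io n d) :
    Io n (Sum.elim d (fun _ : Fin s => D)) := ⟨Sum.inl p.1, p.2⟩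

omit [Fintype β] in
lemma embR_injective (s : ℕ) : Function.Injective (embR n D d s) := by
  rintro ⟨i, a⟩ ⟨j, b⟩ h
  have h1 := Sigma.mk.inj_iff.1 h
  obtain ⟨h2, h3⟩ := h1
  have h4 : i = j := Sum.inl_injective h2
  subst h4
  exact Sigma.ext rfl h3

omit [Fintype β] in
lemma embI_injective (s : ℕ) : Function.Injective (embI n D d s) := by
  rintro ⟨i, a⟩ ⟨j, b⟩ h
  have h1 := Sigma.mk.inj_iff.1 h
  obtain ⟨h2, h3⟩ := h1
  have h4 : i = j := Sum.inl_injective h2
  subst h4
  exact Sigma.ext rfl h3

omit [Fintype β] in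
lemma MX_emb (s : ℕ) (p : Ro n D d) (u : Dg n D) :
    MX n D (Sum.elim d (fun _ : Fin s => D)) K (embR n D d s p) u =
      rename (embI n D d s) (MX n D d K p u) := by
  unfold MX Mx
  by_cases h : p.2.1 ≤ u.1
  · rw [dif_pos h]
    have h' : (embR n D d s p).2.1 ≤ u.1 := h
    rw [dif_pos h', rename_X]
    rfl
  · rw [dif_neg h]
    have h' : ¬ (embR n D d s p).2.1 ≤ u.1 := h
    rw [dif_neg h', map_zero]

end

theorem minor_thm : S_MINOR := by
  intro n D hn β _ d K _ hM
  classical
  rcases le_or_gt (Mon n D).card (Fintype.card (Ro n D d)) with hc | hc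
  · have hr := rank_MK d K hn hM hc
    obtain ⟨f, g, hfg⟩ := exists_minor (MK n D d K)
      (min (Fintype.card (Ro n D d)) (Mon n D).card) (by rw [hr]; exact min_le_right _ _)
    refine ⟨f, g, fun h0 => hfg ?_⟩
    have h1 : (MK n D d K).submatrix f g =
        (algebraMap (MvPolynomial (Io n d) K) (KK n d K)).mapMatrix
          ((MX n D d K).submatrix f g) := by
      ext i j
      rfl
    rw [h1, ← RingHom.map_det, h0, map_zero]
  · obtain ⟨s, hs⟩ : ∃ s, (Mon n D).card = Fintype.card (Ro n D d) + s :=
      ⟨(Mon n D).card - Fintype.card (Ro n D d), by omega⟩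
    set d' : β ⊕ Fin s → ℕ := Sum.elim d (fun _ : Fin s => D) with hd'
    have hcard : Fintype.card (Ro n D d') = (Mon n D).card := by
      rw [Fintype.card_sigma, Fintype.sum_sum_type, hs]
      have e1 : ∑ i : β, Fintype.card (Dc n D (d' (Sum.inl i))) = Fintype.card (Ro n D d) :=
        (Fintype.card_sigma).symm
      have e2 : ∀ i : Fin s, Fintype.card (Dc n D (d' (Sum.inr i))) = 1 := by
        intro i
        show Fintype.card (Dc n D D) = 1
        rw [card_Dc n D D le_rfl, Nat.sub_self, card_Mon, Nat.choose_zero_right]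
      rw [e1]
      simp only [e2]
      simp
    have hM' : ∀ i, d' i ≤ D → SubM n (D - d' i) (d' i) := by
      rintro (i | i) hi
      · exact hM i hi
      · show SubM n (D - D) D
        rw [Nat.sub_self]
        exact subM_of_monM init_thm (MonM_zero n D)
    have hr := rank_MK d' K hn hM' hcard.ge
    have hli : LinearIndependent (KK n d' K) (MK n D d' K).row := by
      rw [linearIndependent_iff_card_eq_finrank_span, hcard, ← hr,
        Matrix.rank_eq_finrank_span_row]
      rfl
    have hli2 := hli.comp _ (embR_injective (n := n) (D := D) d s)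
    have hrB : ((MK n D d' K).submatrix (embR n D d s) id).rank = Fintype.card (Ro n D d) := by
      have h2 : LinearIndependent (KK n d' K) ((MK n D d' K).submatrix (embR n D d s) id).row :=
        hli2
      rw [h2.rank_matrix]
    obtain ⟨f, g, hfg⟩ := exists_minor ((MK n D d' K).submatrix (embR n D d s) id)
      (min (Fintype.card (Ro n D d)) (Mon n D).card) (by rw [hrB]; exact min_le_left _ _)
    refine ⟨f, g, fun h0 => hfg ?_⟩
    have h1 : (((MK n D d' K).submatrix (embR n D d s) id).submatrix f g) =
        ((algebraMap (MvPolynomial (Io n d') K) (KK n d' K)).comp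
          (rename (R := K) (embI n D d s) : MvPolynomial (Io n d) K →ₐ[K]
            MvPolynomial (Io n d') K).toRingHom).mapMatrix ((MX n D d K).submatrix f g) := by
      ext i j
      show algebraMap _ _ (MX n D d' K (embR n D d s (f i)) (g j)) = _
      exact congrArg (algebraMap _ _) (MX_emb d K s (f i) (g j))
    rw [h1, ← RingHom.map_det, h0, map_zero]

end Pool.Agent.TH206.Fro
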