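import Pool.Agent.TH206.Fro.Comp
import Pool.Agent.TH206.Fro.Assoc
import Pool.Agent.TH206.Fro.MainIneq
import Pool.Agent.TH206.Fro.Minor
import Pool.Agent.TH206.Fro.Hilb
import Pool.Agent.TH206.Fro.Series
import Pool.Agent.TH206.Fro.Num

/-!
The formula of Froeberg in degrees smaller than twice the least degree.
-/

set_option autoImplicit false

namespace Pool.Agent.TH206.Fro

open Finset MvPolynomial
open scoped Pointwise

lemma card_Mon_mono {n k d : ℕ} (hn : 1 ≤ n) (hkd : k ≤ d) : (Mon n k).card ≤ (Mon n d).card := by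
  rw [card_Mon, card_Mon]
  have h1 : (n + k - 1).choose k = (n + k - 1).choose (n - 1) := by
    rw [← Nat.choose_symm_of_eq_add]; omega
  have h2 : (n + d - 1).choose d = (n + d - 1).choose (n - 1) := by
    rw [← Nat.choose_symm_of_eq_add]; omega
  rw [h1, h2]
  exact Nat.choose_le_choose _ (by omega)

/-- The product inequality for all sets of monomials. -/
theorem monM_of {n k d : ℕ} (hn : 1 ≤ n) (hkd : k < d)
    (hc : 2 * (n + k) * (n + k - 1).choose k ≤ n * (n + d - 1).choose d) : MonM n k d := by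
  intro A B hA hB hA0 hcard
  have h0 : 0 < A.card := hA0.card_pos
  have h1 := card_Mon_mono (n := n) hn hkd.le
  have hB0 : B.Nonempty := Finset.card_pos.1 (by omega)
  obtain ⟨A', B', hA', hB', sA, sB, cA, cB, hAB⟩ := comp_thm n k d A B hA hB hA0 hB0
  have h2 := main_thm assoc_thm n k d hn hkd hc A' B' hA' hB' sA sB (by omega)
  rw [cA] at h2
  exact h2.trans (Nat.mul_le_mul_right _ hAB)

/-- The condition on the degrees. -/
def Cond (n k d : ℕ) : Prop :=
  2 * k + 2 ≤ n ∨ 2 * (n + k) * (n + k - 1).choose k ≤ n * (n + d - 1).choose d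

lemma Cond.mono {n k k' d : ℕ} (hn : 1 ≤ n) (hk : k' ≤ k) (h : Cond n k d) : Cond n k' d := by
  rcases h with h | h
  · exact Or.inl (by omega)
  · right
    refine le_trans ?_ h
    have h1 := card_Mon_mono (n := n) hn hk
    rw [card_Mon, card_Mon] at h1
    exact Nat.mul_le_mul (by omega) h1

lemma Cond.monM {n k d : ℕ} (hn : 1 ≤ n) (hkd : k < d) (h : Cond n k d) : MonM n k d := by
  rcases h with h | h
  · exact monM_of hn hkd (num_thm n k d hkd h)
  · exact monM_of hn hkd h

lemma card_Ro (n D r : ℕ) (d : Fin r → ℕ) : Fintype.card (Ro n D d) =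
    ∑ i, (if d i ≤ D then (Mon n (D - d i)).card else 0) := by
  rw [Fintype.card_sigma]
  refine Finset.sum_congr rfl fun i _ => ?_
  by_cases h : d i ≤ D
  · rw [if_pos h, card_Dc n D (d i) h]
  · rw [if_neg h, card_Dc' n D (d i) h]

lemma rank_eval (n D r : ℕ) (d : Fin r → ℕ) (K : Type) [Field K] (hn : 1 ≤ n)
    (hM : ∀ i, d i ≤ D → SubM n (D - d i) (d i)) :
    ∃ P : MvPolynomial (Io n d) K, P ≠ 0 ∧ ∀ t : Io n d → K, MvPolynomial.eval t P ≠ 0 →
      (Mx d D t).rank = min (Fintype.card (Ro n D d)) (Mon n D).card := by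
  classical
  obtain ⟨f, g, hfg⟩ := minor_thm n D hn (Fin r) d K hM
  refine ⟨_, hfg, fun t ht => ?_⟩
  apply le_antisymm
  · rw [← card_Dg]
    exact le_min (Matrix.rank_le_card_height _) (Matrix.rank_le_card_width _)
  · have h1 : MvPolynomial.eval t ((MX n D d K).submatrix f g).det =
        ((Mx d D t).submatrix f g).det := by
      rw [RingHom.map_det]
      congr 1
      ext i j
      simp only [RingHom.mapMatrix_apply, Matrix.map_apply, Matrix.submatrix_apply]
      unfold MX Mx
      split_ifs with h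
      · exact MvPolynomial.eval_X _
      · exact map_zero _
    rw [h1] at ht
    exact rank_ge_of_minor _ _ f g ht

/-- The Hilbert function of the quotient of `K[x_1, …, x_n]` by the ideal generated by the forms
`f i`, in degree `k`. -/
noncomputable def hilb {K : Type} [Field K] {n r : ℕ} (f : Fin r → MvPolynomial (Fin n) K)
    (k : ℕ) : ℤ :=
  (Module.finrank K (MvPolynomial.homogeneousSubmodule (Fin n) K k) : ℤ) -
    (Module.finrank K
      ↥(Submodule.restrictScalars K (Ideal.span (Set.range f)) ⊓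
        MvPolynomial.homogeneousSubmodule (Fin n) K k) : ℤ)

open Classical in
/-- The coefficient of `t ^ k` in the series `(1 - t) ^ (-n) * ∏ i, (1 - t ^ d i)` truncated at its
first coefficient that is not positive, that is, the value predicted by Fröberg. -/
noncomputable def fro (n : ℕ) {r : ℕ} (d : Fin r → ℕ) (k : ℕ) : ℤ :=
  if ∀ j ≤ k, 0 < co n d j then co n d k else 0

theorem final (K : Type) [Field K] (n r D : ℕ) (d : Fin r → ℕ) (hn : 1 ≤ n)
    (hD : ∀ i, D < 2 * d i) (hc : ∀ i, d i ≤ D → Cond n (D - d i) (d i)) :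
    ∃ P : MvPolynomial (Io n d) K, P ≠ 0 ∧
      ∀ f : Fin r → MvPolynomial (Fin n) K, (∀ i, (f i).IsHomogeneous (d i)) →
        MvPolynomial.eval (fun s : Io n d => (f s.1).coeff s.2.1) P ≠ 0 →
        ∀ k ≤ D, hilb f k = fro n d k := by
  classical
  have hM : ∀ k ≤ D, ∀ i, d i ≤ k → SubM n (k - d i) (d i) := by
    intro k hk i hi
    apply subM_of_monM init_thm
    apply Cond.monM hn (by have := hD i; omega)
    exact (hc i (hi.trans hk)).mono hn (by omega)
  choose P hP0 hP using fun k : Fin (D + 1) => rank_eval n k r d K hn (hM k (by omega))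
  refine ⟨∏ k, P k, Finset.prod_ne_zero_iff.2 fun k _ => hP0 k, fun f hf hfP k hk => ?_⟩
  rw [map_prod, Finset.prod_ne_zero_iff] at hfP
  have h1 := hP ⟨k, by omega⟩ _ (hfP ⟨k, by omega⟩ (Finset.mem_univ _))
  have h2 : hilb f k = ((Mon n k).card : ℤ) -
      (min (Fintype.card (Ro n k d)) (Mon n k).card : ℕ) := by
    unfold hilb
    rw [dim_thm n k K, hilb_thm n k r d K f hf, h1]
  have hco : ∀ j ≤ D, co n d j = ((Mon n j).card : ℤ) - (Fintype.card (Ro n j d) : ℤ) := by
    intro j hj
    rw [co_thm n r D d hn hD j hj, card_Ro]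
    push_cast
    rfl
  have hsg : ∀ j j', j ≤ j' → j' ≤ D → co n d j ≤ 0 → co n d j' ≤ 0 := by
    intro j j' hjj' hj' h
    rw [co_thm n r D d hn hD j (hjj'.trans hj')] at h
    rw [co_thm n r D d hn hD j' hj']
    exact sign_thm n r D d hn hD j j' hjj' hj' h
  rw [h2]
  unfold fro
  have h3 := hco k hk
  by_cases h : ∀ j ≤ k, 0 < co n d j
  · rw [if_pos h, h3]
    have h4 := h k le_rfl
    rw [h3] at h4
    rw [min_eq_left (by omega)]
  · rw [if_neg h]
    push Not at h
    obtain ⟨j, hj, hj2⟩ := h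
    have h4 := hsg j k hj hk hj2
    rw [h3] at h4
    rw [min_eq_right (by omega)]
    ring

end Pool.Agent.TH206.Fro
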