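import Pool.Agent.TH206.Fro.Stmts

/-!
Linear algebra preparations.
-/

set_option autoImplicit false

namespace Pool.Agent.TH206.Fro

open Module

/-- two orthogonal spaces of vectors -/
lemma finrank_add_le_of_orth {F : Type*} [Field F] {ι : Type*} [Fintype ι]
    (T V : Submodule F (ι → F)) (h : ∀ x ∈ T, ∀ y ∈ V, ∑ i, x i * y i = 0) :
    finrank F T + finrank F V ≤ Fintype.card ι := by
  classical
  have h1 := Subspace.finrank_add_finrank_dualAnnihilator_eq V
  have h2 : T.map (dotProductEquiv F ι).toLinearMap ≤ V.dualAnnihilator := by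
    rintro _ ⟨x, hx, rfl⟩
    rw [Submodule.mem_dualAnnihilator]
    intro y hy
    have := h x hx y hy
    simpa [dotProductEquiv, dotProduct] using this
  have h3 := Submodule.finrank_mono h2
  have h4 : finrank F (T.map (dotProductEquiv F ι).toLinearMap) = finrank F T :=
    LinearEquiv.finrank_map_eq _ _
  rw [finrank_fintype_fun_eq_card] at h1
  omega

/-- rows of a matrix of large rank -/
theorem rows_indep {K : Type*} [Field K] {α γ : Type*} [Fintype α] [Fintype γ]
    (B : Matrix α γ K) (ρ : ℕ) (h : ρ ≤ B.rank) :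
    ∃ f : Fin ρ → α, LinearIndependent K (fun i => B (f i)) := by
  rw [Matrix.rank_eq_finrank_span_row] at h
  obtain ⟨g, hg, -, hli⟩ := Submodule.exists_fun_fin_finrank_span_eq K (Set.range B.row)
  choose e he using hg
  refine ⟨fun i => e (Fin.castLE h i), ?_⟩
  have h1 := hli.comp (Fin.castLE h) (Fin.castLE_injective h)
  have h2 : (fun i => B (e (Fin.castLE h i))) = g ∘ Fin.castLE h := by
    funext i
    exact he (Fin.castLE h i)
  rw [h2]
  exact h1

/-- rank and minors -/
theorem exists_minor {K : Type*} [Field K] {α γ : Type*} [Fintype α] [Fintype γ]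
    (B : Matrix α γ K) (ρ : ℕ) (h : ρ ≤ B.rank) :
    ∃ (f : Fin ρ → α) (g : Fin ρ → γ), (B.submatrix f g).det ≠ 0 := by
  obtain ⟨f, hf⟩ := rows_indep B ρ h
  have h1 : (B.submatrix f id).rank = ρ := by
    have h2 : LinearIndependent K (B.submatrix f id).row := hf
    rw [h2.rank_matrix, Fintype.card_fin]
  have h3 : ρ ≤ (B.submatrix f id).transpose.rank := by
    rw [Matrix.rank_transpose, h1]
  obtain ⟨g, hg⟩ := rows_indep _ ρ h3
  refine ⟨f, g, ?_⟩
  have h4 : LinearIndependent K (B.submatrix f g).transpose.row := hg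
  have h5 : IsUnit (B.submatrix f g).transpose :=
    Matrix.linearIndependent_rows_iff_isUnit.1 h4
  have h6 := (Matrix.isUnit_iff_isUnit_det _).1 h5
  rw [Matrix.det_transpose] at h6
  exact h6.ne_zero

theorem rank_ge_of_minor {K : Type*} [Field K] {α γ : Type*} [Fintype γ] (B : Matrix α γ K)
    (ρ : ℕ) (f : Fin ρ → α) (g : Fin ρ → γ) (h : (B.submatrix f g).det ≠ 0) : ρ ≤ B.rank := by
  have h1 : (B.submatrix f g).rank = Fintype.card (Fin ρ) := Matrix.rank_of_det_ne_zero h
  have h2 := Matrix.rank_submatrix_le B f g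
  rw [h1, Fintype.card_fin] at h2
  exact h2

end Pool.Agent.TH206.Fro
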