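import Pool.Agent.TH206.Fro.Lin0

/-!
The tangent space argument.
-/

set_option autoImplicit false

namespace Pool.Agent.TH206.Fro

open Module MvPolynomial

/-- Exponents of degree `k` as a type. -/
abbrev Dg (n k : ℕ) := {u : Fin n →₀ ℕ // Finsupp.degree u = k}

instance (n k : ℕ) : Finite (Dg n k) := by
  have : Finite {u : Fin n →₀ ℕ // u ∈ Mon n k} := Finite.of_fintype _
  exact Finite.of_injective (fun u : Dg n k => (⟨u.1, mem_Mon'.2 u.2⟩ : {u // u ∈ Mon n k}))
    (fun a b h => Subtype.ext (congrArg (fun z => z.1) h))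

noncomputable instance (n k : ℕ) : Fintype (Dg n k) := Fintype.ofFinite _

/-- The exponents complementary to degree `e` in degree `D`. -/
abbrev Dc (n D e : ℕ) := {u : Fin n →₀ ℕ // Finsupp.degree u + e = D}

instance (n D e : ℕ) : Finite (Dc n D e) :=
  Finite.of_injective (fun u : Dc n D e => (⟨u.1, by have := u.2; omega⟩ : Dg n (D - e)))
    (fun a b h => Subtype.ext (congrArg (fun z => z.1) h))

noncomputable instance (n D e : ℕ) : Fintype (Dc n D e) := Fintype.ofFinite _

lemma card_Dg (n k : ℕ) : Fintype.card (Dg n k) = (Mon n k).card := by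
  rw [← Fintype.card_coe]
  exact Fintype.card_congr (Equiv.subtypeEquivRight fun u => by
    rw [← mem_Mon'])

lemma card_Dc (n D e : ℕ) (h : e ≤ D) : Fintype.card (Dc n D e) = (Mon n (D - e)).card := by
  rw [← card_Dg]
  exact Fintype.card_congr (Equiv.subtypeEquivRight fun u => by omega)

lemma card_Dc' (n D e : ℕ) (h : ¬ e ≤ D) : Fintype.card (Dc n D e) = 0 := by
  rw [Fintype.card_eq_zero_iff]
  exact ⟨fun u => h (by have := u.2; omega)⟩

section mats

variable {n D : ℕ} {R : Type*} [CommRing R]

/-- the sum of two complementary exponents -/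
noncomputable def addE {e : ℕ} (a : Dc n D e) (m : Dg n e) : Dg n D :=
  ⟨a.1 + m.1, by rw [map_add, m.2]; exact a.2⟩

/-- the catalecticant matrix -/
noncomputable def Hk (G : Dg n D → R) (e : ℕ) : Matrix (Dc n D e) (Dg n e) R := fun a m => G (addE a m)

variable {β : Type} (d : β → ℕ)

/-- The variables: the coefficients of the forms -/
abbrev Io (n : ℕ) {β : Type} (d : β → ℕ) := Σ i : β, Dg n (d i)

/-- The rows: the multiples of the forms in degree `D` -/
abbrev Ro (n D : ℕ) {β : Type} (d : β → ℕ) := Σ i : β, Dc n D (d i)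

open Classical in
/-- the matrix of the multiples of the forms in degree `D` -/
noncomputable def Mx (D : ℕ) (t : Io n d → R) : Matrix (Ro n D d) (Dg n D) R := fun p u =>
  if h : p.2.1 ≤ u.1 then t ⟨p.1, ⟨u.1 - p.2.1, by
    have h1 : u.1 - p.2.1 + p.2.1 = u.1 := tsub_add_cancel_of_le h
    have h2 := congrArg Finsupp.degree h1
    rw [map_add, u.2] at h2
    have := p.2.2
    omega⟩⟩ else 0

lemma Mx_add (t : Io n d → R) (i : β) (a : Dc n D (d i)) (m : Dg n (d i)) :
    Mx d D t ⟨i, a⟩ (addE a m) = t ⟨i, m⟩ := by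
  unfold Mx addE
  have h : a.1 ≤ a.1 + m.1 := le_self_add
  rw [dif_pos h]
  congr 1
  refine Sigma.ext rfl (heq_of_eq (Subtype.ext ?_))
  exact add_tsub_cancel_left _ _

open Classical in
lemma sum_Mx (t : Io n d → R) (i : β) (a : Dc n D (d i)) (G : Dg n D → R) :
    ∑ u, Mx d D t ⟨i, a⟩ u * G u = ∑ m : Dg n (d i), t ⟨i, m⟩ * Hk G (d i) a m := by
  rw [← Finset.sum_subset (Finset.subset_univ (Finset.univ.image (addE a)))]
  · rw [Finset.sum_image]
    · exact Finset.sum_congr rfl fun m _ => by rw [Mx_add]; rfl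
    · intro m _ m' _ h
      have := congrArg (fun z => z.1) h
      exact Subtype.ext (add_left_cancel this)
  · intro u _ hu
    have : ¬ a.1 ≤ u.1 := fun h => hu (Finset.mem_image.2 ⟨⟨u.1 - a.1, by
      have h1 : u.1 - a.1 + a.1 = u.1 := tsub_add_cancel_of_le h
      have h2 := congrArg Finsupp.degree h1
      rw [map_add, u.2] at h2
      have := a.2
      omega⟩, Finset.mem_univ _, Subtype.ext (by
        change a.1 + (u.1 - a.1) = u.1
        exact add_tsub_cancel_of_le h)⟩)
    unfold Mx
    rw [dif_neg this, zero_mul]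

end mats

section tangent

variable {n D : ℕ} {β : Type} [Fintype β] (d : β → ℕ) {K : Type} [Field K]

open Classical in
/-- The columns of the block matrix are independent. -/
lemma sum_rank_le {F : Type*} [Field F] (G : Dg n D → F)
    (T : Submodule F (Ro n D d → F))
    (hT : ∀ (i : β) (m : Dg n (d i)), (fun p : Ro n D d => if h : p.1 = i then
      Hk G (d i) (h ▸ p.2) m else 0) ∈ T) :
    ∑ i, (Hk G (d i)).rank ≤ finrank F T := by
  have h1 : ∀ i, ∃ f : Fin ((Hk G (d i)).rank) → Dg n (d i),
      LinearIndependent F (fun j => (Hk G (d i)).transpose (f j)) := fun i =>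
    rows_indep _ _ (by rw [Matrix.rank_transpose])
  choose f hf using h1
  let v : (Σ i : β, Fin ((Hk G (d i)).rank)) → T := fun s =>
    ⟨_, hT s.1 (f s.1 s.2)⟩
  have hv : LinearIndependent F v := by
    rw [Fintype.linearIndependent_iff]
    intro g hg s
    have h2 := Fintype.linearIndependent_iff.1 (hf s.1) (fun j => g ⟨s.1, j⟩) (by
      funext a
      have h3 := congrArg (fun z : T => z.1 ⟨s.1, a⟩) hg
      simp only [v, Submodule.coe_sum, Submodule.coe_smul, Finset.sum_apply, Pi.smul_apply,
        smul_eq_mul, Submodule.coe_zero, Pi.zero_apply] at h3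
      rw [Fintype.sum_sigma, Finset.sum_eq_single s.1] at h3
      · simpa using h3
      · intro i _ hi
        refine Finset.sum_eq_zero fun j _ => ?_
        rw [dif_neg (fun h => hi h.symm), mul_zero]
      · intro h; exact absurd (Finset.mem_univ _) h) s.2
    exact h2
  have h4 := hv.fintype_card_le_finrank
  rw [Fintype.card_sigma] at h4
  simpa using h4

end tangent

end Pool.Agent.TH206.Fro
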