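import Pool.Agent.TH206.Fro.Lin1

/-!
The tangent space argument, continued.
-/

set_option autoImplicit false

namespace Pool.Agent.TH206.Fro

open Module MvPolynomial

/-- Clearing denominators. -/
lemma clear_den {R 𝕂 : Type*} [CommRing R] [IsDomain R] [Field 𝕂] [Algebra R 𝕂]
    [IsFractionRing R 𝕂] {α : Type*} [Finite α] (v : α → 𝕂) :
    ∃ (s : R) (v' : α → R), s ≠ 0 ∧ ∀ a, algebraMap R 𝕂 (v' a) = algebraMap R 𝕂 s * v a := by
  obtain ⟨b, hb⟩ := IsLocalization.exist_integer_multiples_of_finite (nonZeroDivisors R) v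
  choose v' hv' using hb
  refine ⟨b, v', nonZeroDivisors.ne_zero b.2, fun a => ?_⟩
  rw [hv' a, Algebra.smul_def]

lemma deriv_orth {R 𝕂 : Type*} [CommRing R] [IsDomain R] [Field 𝕂] [Algebra R 𝕂]
    [IsFractionRing R 𝕂] {A : Type*} [CommRing A] [Algebra A R] (δ : Derivation A R R)
    {α γ : Type*} [Fintype α] [Fintype γ] (H : Matrix α γ R) (v : α → 𝕂) (w : γ → 𝕂)
    (hv : ∀ m, ∑ a, v a * algebraMap R 𝕂 (H a m) = 0)
    (hw : ∀ a, ∑ m, w m * algebraMap R 𝕂 (H a m) = 0) :
    ∑ a, ∑ m, v a * w m * algebraMap R 𝕂 (δ (H a m)) = 0 := by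
  obtain ⟨s, v', hs, hv'⟩ := clear_den (R := R) v
  obtain ⟨s', w', hs', hw'⟩ := clear_den (R := R) w
  have hinj := IsFractionRing.injective R 𝕂
  have h1 : ∀ m, ∑ a, v' a * H a m = 0 := by
    intro m
    apply hinj
    rw [map_zero, map_sum]
    have : ∑ a, algebraMap R 𝕂 (v' a * H a m) =
        algebraMap R 𝕂 s * ∑ a, v a * algebraMap R 𝕂 (H a m) := by
      rw [Finset.mul_sum]
      exact Finset.sum_congr rfl fun a _ => by rw [map_mul, hv' a, mul_assoc]
    rw [this, hv m, mul_zero]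
  have h2 : ∀ a, ∑ m, w' m * H a m = 0 := by
    intro a
    apply hinj
    rw [map_zero, map_sum]
    have : ∑ m, algebraMap R 𝕂 (w' m * H a m) =
        algebraMap R 𝕂 s' * ∑ m, w m * algebraMap R 𝕂 (H a m) := by
      rw [Finset.mul_sum]
      exact Finset.sum_congr rfl fun a _ => by rw [map_mul, hw' a, mul_assoc]
    rw [this, hw a, mul_zero]
  have h3 : ∑ a, ∑ m, v' a * w' m * δ (H a m) = 0 := by
    have e1 : δ (∑ m, w' m * ∑ a, v' a * H a m) = 0 := by
      simp [h1]
    have e2 : ∑ a, δ (v' a) * ∑ m, w' m * H a m = 0 := by simp [h2]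
    have e3 : ∑ m, δ (w' m) * ∑ a, v' a * H a m = 0 := by simp [h1]
    have e4 : δ (∑ m, w' m * ∑ a, v' a * H a m) =
        (∑ a, δ (v' a) * ∑ m, w' m * H a m) + (∑ m, δ (w' m) * ∑ a, v' a * H a m) +
          ∑ a, ∑ m, v' a * w' m * δ (H a m) := by
      simp only [map_sum, Derivation.leibniz, smul_eq_mul, Finset.mul_sum,
        Finset.sum_add_distrib]
      rw [Finset.sum_comm (f := fun a m => δ (v' a) * (w' m * H a m)),
        Finset.sum_comm (f := fun a m => v' a * w' m * δ (H a m))]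
      simp only [← Finset.sum_add_distrib]
      refine Finset.sum_congr rfl fun m _ => Finset.sum_congr rfl fun a _ => ?_
      ring
    rw [e2, e3, zero_add, zero_add] at e4
    rw [← e4, e1]
  have h4 := congrArg (algebraMap R 𝕂) h3
  rw [map_zero, map_sum] at h4
  have h5 : algebraMap R 𝕂 s * algebraMap R 𝕂 s' *
      (∑ a, ∑ m, v a * w m * algebraMap R 𝕂 (δ (H a m))) = 0 := by
    rw [← h4, Finset.mul_sum]
    refine Finset.sum_congr rfl fun a _ => ?_
    rw [map_sum, Finset.mul_sum]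
    refine Finset.sum_congr rfl fun m _ => ?_
    rw [map_mul, map_mul, hv', hw']
    ring
  have h6 : algebraMap R 𝕂 s ≠ 0 := fun h => hs (hinj (by rw [h, map_zero]))
  have h7 : algebraMap R 𝕂 s' ≠ 0 := fun h => hs' (hinj (by rw [h, map_zero]))
  exact (mul_eq_zero.1 h5).resolve_left (mul_ne_zero h6 h7)

section poly

variable {F : Type*} [Field F] {n : ℕ}

/-- the form with given coefficients -/
noncomputable def tp {α : Type*} [Fintype α] (j : α → (Fin n →₀ ℕ)) :
    (α → F) →ₗ[F] MvPolynomial (Fin n) F :=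
  ∑ a, (MvPolynomial.monomial (j a)).comp (LinearMap.proj a)

lemma tp_apply {α : Type*} [Fintype α] (j : α → (Fin n →₀ ℕ)) (v : α → F) :
    tp j v = ∑ a, MvPolynomial.monomial (j a) (v a) := by
  simp [tp]

lemma coeff_tp {α : Type*} [Fintype α] {j : α → (Fin n →₀ ℕ)} (hj : Function.Injective j)
    (v : α → F) (a : α) : (tp j v).coeff (j a) = v a := by
  classical
  rw [tp_apply, MvPolynomial.coeff_sum, Finset.sum_eq_single a]
  · rw [MvPolynomial.coeff_monomial, if_pos rfl]
  · intro b _ hb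
    rw [MvPolynomial.coeff_monomial, if_neg fun h => hb (hj h)]
  · intro h; exact absurd (Finset.mem_univ _) h

lemma tp_inj {α : Type*} [Fintype α] {j : α → (Fin n →₀ ℕ)} (hj : Function.Injective j) :
    Function.Injective (tp (F := F) j) := by
  intro v w h
  funext a
  rw [← coeff_tp hj v a, h, coeff_tp hj]

lemma tp_hom {α : Type*} [Fintype α] {j : α → (Fin n →₀ ℕ)} {k : ℕ}
    (hj : ∀ a, Finsupp.degree (j a) = k) (v : α → F) :
    tp j v ∈ MvPolynomial.homogeneousSubmodule (Fin n) F k := by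
  rw [tp_apply]
  refine Submodule.sum_mem _ fun a _ => ?_
  rw [MvPolynomial.mem_homogeneousSubmodule]
  exact MvPolynomial.isHomogeneous_monomial _ (hj a)

/-- the functional on the forms of degree `D` given by a vector -/
noncomputable def lam {D : ℕ} (G : Dg n D → F) : MvPolynomial (Fin n) F →ₗ[F] F :=
  ∑ u : Dg n D, G u • MvPolynomial.lcoeff F u.1

lemma lam_apply {D : ℕ} (G : Dg n D → F) (x : MvPolynomial (Fin n) F) :
    lam G x = ∑ u : Dg n D, G u * x.coeff u.1 := by
  simp [lam]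

lemma lam_monomial {D : ℕ} (G : Dg n D → F) (u : Dg n D) (c : F) :
    lam G (MvPolynomial.monomial u.1 c) = G u * c := by
  classical
  rw [lam_apply, Finset.sum_eq_single u]
  · rw [MvPolynomial.coeff_monomial, if_pos rfl]
  · intro b _ hb
    rw [MvPolynomial.coeff_monomial, if_neg fun h => hb (Subtype.ext h.symm), mul_zero]
  · intro h; exact absurd (Finset.mem_univ _) h

lemma lam_mul {D e : ℕ} (G : Dg n D → F) (v : Dc n D e → F) (w : Dg n e → F) :
    lam G (tp (fun a : Dc n D e => a.1) v * tp (fun m : Dg n e => m.1) w) =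
      ∑ a, ∑ m, v a * w m * G (addE a m) := by
  rw [tp_apply, tp_apply, Finset.sum_mul_sum, map_sum]
  refine Finset.sum_congr rfl fun a _ => ?_
  rw [map_sum]
  refine Finset.sum_congr rfl fun m _ => ?_
  rw [MvPolynomial.monomial_mul]
  have := lam_monomial G (addE a m) (v a * w m)
  rw [mul_comm (v a * w m)]
  exact this

end poly

end Pool.Agent.TH206.Fro
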